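import Mathlib

set_option autoImplicit false

namespace Pool.Agent.H.MP_7c4d4b_nt

/-- product of all numerators except the last one -/
def bigM : ℕ → List ℕ → ℕ
  | _, [] => 1
  | a, c :: l => a * bigM c l

/-- modular check of a chain of numerators -/
def chk (B : ℕ) : List ℕ → ℕ → ℕ → ℕ → Bool
  | [], a, _, _ => Nat.beq a 1
  | c :: l, a, M, r =>
      Nat.blt 0 a && Nat.blt 0 c && Nat.blt c B && Nat.beq ((r + c) % a) 0 &&
        chk B l c (M / a) ((r * ((r + c) / a)) % (M / a))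

theorem chain (B : ℕ) : ∀ (l : List ℕ) (a M r b t : ℕ), chk B l a M r = true → M = bigM a l →
    b ≡ r [MOD M] → B ≤ b → 0 < b → a * t < b →
    ∃ S : Finset ℕ, (∀ x ∈ S, t < x) ∧
      (a : ℚ) / b = ∑ x ∈ S, (1 : ℚ) / x + 1 / (b * ∏ x ∈ S, (x : ℚ)) := by
  intro l
  induction l with
  | nil =>
    intro a M r b t h _ _ _ _ _
    simp only [chk, Nat.beq_eq] at h
    subst h
    exact ⟨∅, by simp, by simp⟩
  | cons c l ih =>
    intro a M r b t h hM hb hB hb0 ht
    simp only [chk, Bool.and_eq_true, Nat.blt_eq, Nat.beq_eq] at h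
    obtain ⟨⟨⟨⟨ha, hc⟩, hcB⟩, hd⟩, hrec⟩ := h
    have hMa : M / a = bigM c l := by
      rw [hM, bigM, Nat.mul_div_cancel_left _ ha]
    have hM' : M = a * (M / a) := by rw [hMa, hM, bigM]
    have h1 : a ∣ r + c := Nat.dvd_of_mod_eq_zero hd
    have h2 : b + c ≡ r + c [MOD a * (M / a)] := by
      rw [← hM']; exact hb.add_right c
    have h3 : a ∣ b + c := by
      have : b + c ≡ r + c [MOD a] := h2.of_mul_right _
      exact (this.dvd_iff dvd_rfl).2 h1
    obtain ⟨x, hx⟩ := h3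
    obtain ⟨y, hy⟩ := h1
    have hyy : (r + c) / a = y := by rw [hy, Nat.mul_div_cancel_left _ ha]
    have h4 : x ≡ y [MOD (M / a)] := by
      rw [hx, hy] at h2
      exact Nat.ModEq.mul_left_cancel' ha.ne' h2
    have h5 : b ≡ r [MOD (M / a)] := by
      rw [hM'] at hb; exact hb.of_mul_left _
    have h6 : b * x ≡ (r * ((r + c) / a)) % (M / a) [MOD (M / a)] := by
      rw [hyy]; exact (h5.mul h4).trans (Nat.mod_modEq _ _).symm
    have htx : t < x := by
      have : a * t < a * x := by omega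
      exact lt_of_mul_lt_mul_left this (Nat.zero_le _)
    have hx0 : 0 < x := by omega
    obtain ⟨S, hS, hE⟩ := ih c (M / a) _ (b * x) x hrec hMa h6
      (hB.trans (Nat.le_mul_of_pos_right _ hx0)) (Nat.mul_pos hb0 hx0)
      (Nat.mul_lt_mul_of_pos_right (by omega) hx0)
    have hxS : x ∉ S := fun hh => lt_irrefl _ (hS x hh)
    refine ⟨insert x S, ?_, ?_⟩
    · intro z hz
      rcases Finset.mem_insert.1 hz with rfl | hz
      · exact htx
      · exact htx.trans (hS z hz)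
    · rw [Finset.sum_insert hxS, Finset.prod_insert hxS, add_assoc, ← mul_assoc]
      push_cast at hE
      rw [← hE]
      have hq : (b : ℚ) + c = a * x := by exact_mod_cast hx
      have hb' : (b : ℚ) ≠ 0 := by positivity
      have hx' : (x : ℚ) ≠ 0 := by positivity
      field_simp
      linarith

theorem of_finset (T : Finset ℕ) (h1 : ∀ x ∈ T, 1 < x)
    (h : ∑ x ∈ T, (1 : ℚ) / x + 1 / (∏ x ∈ T, (x : ℚ)) = 2) :
    ∃ s : ℕ, ∃ x : Fin s → ℕ, StrictMono x ∧ (∀ i, 1 < x i) ∧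
      (∑ i, (1 : ℚ) / (x i : ℚ)) + 1 / (∏ i, (x i : ℚ)) = 2 := by
  refine ⟨T.card, T.orderEmbOfFin rfl, (T.orderEmbOfFin rfl).strictMono,
    fun i => h1 _ (T.orderEmbOfFin_mem rfl i), ?_⟩
  have hm := Finset.map_orderEmbOfFin_univ T rfl
  rw [← h]
  conv_rhs => rw [← hm]
  rw [Finset.sum_map, Finset.prod_map]
  rfl

theorem final (P : Finset ℕ) (t a b : ℕ) (l : List ℕ) (hP : ∀ x ∈ P, 1 < x ∧ x ≤ t) (ht : 1 ≤ t)
    (hb : ∏ x ∈ P, (x : ℚ) = b) (ha : ∑ x ∈ P, (1 : ℚ) / x + (a : ℚ) / b = 2)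
    (hb0 : 0 < b) (hab : a * t < b) (hc : chk b l a (bigM a l) (b % bigM a l) = true) :
    ∃ s : ℕ, ∃ x : Fin s → ℕ, StrictMono x ∧ (∀ i, 1 < x i) ∧
      (∑ i, (1 : ℚ) / (x i : ℚ)) + 1 / (∏ i, (x i : ℚ)) = 2 := by
  obtain ⟨S, hS, hE⟩ := chain b l a _ _ b t hc rfl (Nat.mod_modEq _ _).symm le_rfl hb0 hab
  have hd : Disjoint P S := by
    rw [Finset.disjoint_left]
    intro x hx hx'
    have := hP x hx
    have := hS x hx'
    omega
  apply of_finset (P ∪ S)
  · intro x hx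
    rcases Finset.mem_union.1 hx with hx | hx
    · exact (hP x hx).1
    · have := hS x hx; omega
  · rw [Finset.sum_union hd, Finset.prod_union hd, hb, add_assoc, ← hE, ha]

end Pool.Agent.H.MP_7c4d4b_nt
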